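import Mathlib
import Pool.Agent.helper33.Insul.QE2

/-!
# Minimisers of the constant-thickness insulation functional need not exist (MP_ecdc1b_an)

For every dimension `n ≥ 3`, every thickness `δ > 0`, every volume `m > 0` and every
`β ≥ 4^(n+4)/δ`, the infimum of the heat dispersion `I_{β,δ}(D)` over all bounded open connected
sets `D ⊆ ℝⁿ` of volume `m` is not attained. All definitions used by the statement are in this file.

The boundary energy `∫_{∂*Ω} φ² dH^{n-1}` is written as the total variation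
`sup {∫_Ω div(φ² X) dx : X ∈ C¹_c(ℝⁿ;ℝⁿ), |X| ≤ 1}`, to which it is equal by the Gauss-Green formula
(De Giorgi); `φ` need not be continuous, and its values on `∂*Ω` are those of its precise
representative.

The condition `φ ≥ 1` on `closure D` for `φ ∈ H¹(ℝⁿ)` is treated in both of its usual readings:
almost everywhere, and in the sense of `H¹(ℝⁿ)` (equivalently, quasi-everywhere).
-/

set_option autoImplicit false
open MeasureTheory Metric Set Filter Topology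
open scoped ENNReal ContDiff

namespace Pool.Agent.Results.MP_ecdc1b_an.NotAttained

/-- Euclidean space `ℝⁿ` -/
abbrev E (n : ℕ) := EuclideanSpace ℝ (Fin n)

variable {n : ℕ}

/-- The admissible sets of measure `m`: bounded, open, connected subsets `D` of `ℝⁿ` with
`|D| = m` -/
def Admissible (n : ℕ) (m : ℝ) (D : Set (E n)) : Prop :=
  Bornology.IsBounded D ∧ IsOpen D ∧ IsConnected D ∧ volume D = ENNReal.ofReal m

/-- `Ω = D + δB = {x + δy : x ∈ D, y ∈ B}`, `B` the open unit ball -/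
def layer (δ : ℝ) (D : Set (E n)) : Set (E n) :=
  {z | ∃ x ∈ D, ∃ y ∈ ball (0 : E n) 1, z = x + δ • y}

/-- `φ ∈ H¹(ℝⁿ)` with weak gradient `∇φ = G`: both are square integrable and
`∫ φ ∂ₑψ = -∫ ⟨G,e⟩ ψ` for every `ψ ∈ C_c^∞(ℝⁿ)` and every vector `e` -/
def H1 (φ : E n → ℝ) (G : E n → E n) : Prop :=
  MemLp φ 2 volume ∧ MemLp G 2 volume ∧
  ∀ ψ : E n → ℝ, ContDiff ℝ ∞ ψ → HasCompactSupport ψ → ∀ e : E n,
    ∫ x, φ x * fderiv ℝ ψ x e = - ∫ x, inner ℝ (G x) e * ψ x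

/-- the divergence of a vector field -/
noncomputable def divergence (X : E n → E n) (x : E n) : ℝ :=
  ∑ i : Fin n, (fderiv ℝ X x (EuclideanSpace.single i 1)) i

/-- The boundary energy `∫_{∂*Ω} φ² dH^{n-1}` of `φ ∈ H¹(ℝⁿ)` with weak gradient `G`, as the total
variation `sup {∫_Ω div(φ² X) dx : X ∈ C¹_c(ℝⁿ;ℝⁿ), |X| ≤ 1}`, where
`div(φ² X) = φ² div X + 2 φ G·X` -/
noncomputable def boundaryEnergy (Ω : Set (E n)) (φ : E n → ℝ) (G : E n → E n) : ℝ≥0∞ :=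
  ⨆ (X : E n → E n) (_ : ContDiff ℝ 1 X ∧ HasCompactSupport X ∧ ∀ x, ‖X x‖ ≤ 1),
    ENNReal.ofReal (∫ x in Ω, (φ x ^ 2 * divergence X x + 2 * φ x * inner ℝ (G x) (X x)))

/-- The energy `∫_Ω |∇φ|² dx + β ∫_{∂*Ω} φ² dH^{n-1}` -/
noncomputable def energy (β : ℝ) (Ω : Set (E n)) (φ : E n → ℝ) (G : E n → E n) : ℝ≥0∞ :=
  (∫⁻ x in Ω, ‖G x‖ₑ ^ 2) + ENNReal.ofReal β * boundaryEnergy Ω φ G

/-- First reading of '`φ ∈ H¹(ℝⁿ)`, `φ ≥ 1` on `K`': `φ ≥ 1` almost everywhere on `K` -/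
def GeOneAE (K : Set (E n)) (φ : E n → ℝ) (G : E n → E n) : Prop :=
  H1 φ G ∧ ∀ᵐ x, x ∈ K → 1 ≤ φ x

/-- Second reading of '`φ ∈ H¹(ℝⁿ)`, `φ ≥ 1` on `K`': in the sense of `H¹(ℝⁿ)`, that is, `φ` is a
limit in `H¹(ℝⁿ)` of continuous functions `φ' j ∈ H¹(ℝⁿ)` with `φ' j x ≥ 1` at every `x ∈ K` -/
def GeOneH1 (K : Set (E n)) (φ : E n → ℝ) (G : E n → E n) : Prop :=
  H1 φ G ∧ ∃ (φ' : ℕ → E n → ℝ) (G' : ℕ → E n → E n),
    (∀ j, H1 (φ' j) (G' j) ∧ Continuous (φ' j) ∧ ∀ x ∈ K, 1 ≤ φ' j x) ∧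
    Tendsto (fun j => eLpNorm (φ' j - φ) 2 volume) atTop (𝓝 0) ∧
    Tendsto (fun j => eLpNorm (G' j - G) 2 volume) atTop (𝓝 0)

/-- The heat dispersion `I_{β,δ}(D)`, for the reading `Ge` of '`φ ∈ H¹(ℝⁿ)`, `φ ≥ 1` on
`closure D`' -/
noncomputable def dispersion (Ge : Set (E n) → (E n → ℝ) → (E n → E n) → Prop) (β δ : ℝ)
    (D : Set (E n)) : ℝ≥0∞ :=
  ⨅ (φ : E n → ℝ) (G : E n → E n) (_ : Ge (closure D) φ G), energy β (layer δ D) φ G

/-- The infimum of `I` over the admissible sets of measure `m` is attained by one of them -/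
def Attained (n : ℕ) (m : ℝ) (I : Set (E n) → ℝ≥0∞) : Prop :=
  ∃ D, Admissible n m D ∧ I D = ⨅ (D' : Set (E n)) (_ : Admissible n m D'), I D'

open Pool.Agent.helper33

theorem H1_iff {φ : E n → ℝ} {G : E n → E n} : H1 φ G ↔ Insul.IsH1 φ G :=
  ⟨fun h => ⟨h.1, h.2.1, h.2.2⟩, fun h => ⟨h.memLp, h.memLp_grad, h.weak⟩⟩

theorem layer_eq {δ : ℝ} (hδ : 0 < δ) (D : Set (E n)) : layer δ D = thickening δ D := by
  ext z
  rw [mem_thickening_iff]
  constructor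
  · rintro ⟨x, hx, y, hy, rfl⟩
    refine ⟨x, hx, ?_⟩
    rw [mem_ball_zero_iff] at hy
    rw [dist_eq_norm, add_sub_cancel_left, norm_smul, Real.norm_eq_abs, abs_of_pos hδ]
    nlinarith
  · rintro ⟨x, hx, hz⟩
    refine ⟨x, hx, δ⁻¹ • (z - x), ?_, ?_⟩
    · rw [mem_ball_zero_iff, norm_smul, norm_inv, Real.norm_eq_abs, abs_of_pos hδ, ← dist_eq_norm,
        inv_mul_lt_iff₀ hδ, mul_one]
      exact hz
    · rw [smul_smul, mul_inv_cancel₀ hδ.ne', one_smul]; abel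

theorem dispersion_eq {Ge Cls : Set (E n) → (E n → ℝ) → (E n → E n) → Prop}
    (h : ∀ K φ G, Ge K φ G ↔ Cls K φ G) (β : ℝ) {δ : ℝ} (hδ : 0 < δ) (D : Set (E n)) :
    dispersion Ge β δ D = Insul.insulC Cls β δ D := by
  unfold dispersion Insul.insulC
  congr 1; ext1 φ; congr 1; ext1 G
  refine iInf_congr_Prop (h _ _ _) fun _ => ?_
  rw [layer_eq hδ]
  rfl

theorem ae_iff (K : Set (E n)) (φ : E n → ℝ) (G : E n → E n) :
    GeOneAE K φ G ↔ Insul.ClsAE K φ G := and_congr_left fun _ => H1_iff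

theorem h1_iff (K : Set (E n)) (φ : E n → ℝ) (G : E n → E n) :
    GeOneH1 K φ G ↔ Insul.ClsQE K φ G := by
  unfold GeOneH1 Insul.ClsQE
  simp only [H1_iff]

theorem not_attained {Ge Cls : Set (E n) → (E n → ℝ) → (E n → E n) → Prop}
    (h : ∀ K φ G, Ge K φ G ↔ Cls K φ G) (hC : Insul.GoodClass Cls) (hn : 3 ≤ n)
    {β δ m : ℝ} (hδ : 0 < δ) (hβ : 4 ^ (n + 4) / δ ≤ β) :
    ¬ Attained n m (dispersion Ge β δ) := by
  rintro ⟨D, ⟨hb, ho, hc, hv⟩, hD⟩
  obtain ⟨D', ho', hc', hb', hv', hlt⟩ := Insul.not_attained hC hn hδ hβ ho hc hb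
  rw [← dispersion_eq h β hδ, ← dispersion_eq h β hδ, hD] at hlt
  exact absurd hlt (not_lt.2 (iInf₂_le D' ⟨hb', ho', hc', hv'.trans hv⟩))

theorem exists_admissible (hn : 0 < n) {m : ℝ} (hm : 0 < m) : ∃ D, Admissible n m D := by
  have : Nonempty (Fin n) := ⟨⟨0, hn⟩⟩
  set c := volume (ball (0 : E n) 1) with hc
  have hc0 : 0 < c := measure_ball_pos _ _ one_pos
  have hct : c ≠ ⊤ := measure_ball_lt_top.ne
  have hcr : 0 < c.toReal := ENNReal.toReal_pos hc0.ne' hct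
  set r : ℝ := (m / c.toReal) ^ (1 / (n : ℝ)) with hr
  have hr0 : 0 < r := by positivity
  refine ⟨ball 0 r, isBounded_ball, isOpen_ball, ⟨⟨0, mem_ball_self hr0⟩,
    (convex_ball 0 r).isPreconnected⟩, ?_⟩
  rw [Measure.addHaar_ball _ _ hr0.le, finrank_euclideanSpace, Fintype.card_fin, hr,
    ← Real.rpow_natCast, ← Real.rpow_mul (by positivity), one_div,
    inv_mul_cancel₀ (by exact_mod_cast hn.ne'), Real.rpow_one, ← hc,
    ← ENNReal.ofReal_toReal hct, ENNReal.toReal_ofReal hcr.le,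
    ← ENNReal.ofReal_mul (by positivity), div_mul_cancel₀ _ hcr.ne']

/-- For all `n ≥ 3`, `δ, m > 0` and `β ≥ 4^(n+4)/δ` there are admissible sets of measure `m`, but
none of them attains the infimum of `I_{β,δ}` over all admissible sets of measure `m`, in either
reading of '`φ ≥ 1` on `closure D`'. -/
theorem result (n : ℕ) (hn : 3 ≤ n) (β δ m : ℝ) (hδ : 0 < δ) (hm : 0 < m)
    (hβ : 4 ^ (n + 4) / δ ≤ β) :
    (∃ D, Admissible n m D) ∧
    ¬ Attained n m (dispersion GeOneAE β δ) ∧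
    ¬ Attained n m (dispersion GeOneH1 β δ) :=
  ⟨exists_admissible (by omega) hm, not_attained ae_iff Insul.goodAE hn hδ hβ,
    not_attained h1_iff Insul.goodQE hn hδ hβ⟩

end Pool.Agent.Results.MP_ecdc1b_an.NotAttained
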